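import Pool.Agent.helper74.MQ.Spec

/-!
# Project mq, module HINJ
-/

set_option autoImplicit false

open Complex Metric Set Filter Topology MeasureTheory MPS

noncomputable section

namespace MQ

/-- two rays through the same point with the same derivative are the same. -/
theorem HINJ_inj (hNU : NU_stmt) (hNI : NI_stmt) {k : ℕ} [NeZero k] (b g : ZMod k → ℂ)
    (ψ : ZMod k → ℂ → ℂ) (hb : Function.Injective b) (hPN : ∀ i, PN b g i (ψ i) 1)
    (i i' : ZMod k) (χ χ' : ℂ → ℂ) (Ω Ω' : Set ℂ) (u u' y y' : ℝ) (hΩ : IsOpen Ω)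
    (hΩ' : IsOpen Ω') (hL : ∀ w ∈ Ω, ∀ s : ℝ, 0 ≤ s → w - s ∈ Ω)
    (hL' : ∀ w ∈ Ω', ∀ s : ℝ, 0 ≤ s → w - s ∈ Ω') (hχ : IsNat b g χ Ω) (hχ' : IsNat b g χ' Ω')
    (he : EqOn χ (hat (ψ i)) (HP 0)) (he' : EqOn χ' (hat (ψ i')) (HP 0))
    (hw : (u : ℂ) + y * I ∈ Ω) (hw' : (u' : ℂ) + y' * I ∈ Ω')
    (hv : χ ((u : ℂ) + y * I) = χ' ((u' : ℂ) + y' * I))
    (hd : deriv χ ((u : ℂ) + y * I) = deriv χ' ((u' : ℂ) + y' * I)) :
    i = i' ∧ ∃ N : ℤ, y' = y + N * (2 * Real.pi) := by
  set w := (u : ℂ) + y * I with hwd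
  set w' := (u' : ℂ) + y' * I with hwd'
  obtain ⟨σ, hσ, hσd, -, hseg⟩ := hNU k b g χ χ' Ω Ω' w w' hΩ hΩ' hχ hχ' hw hw' hv
  have hd0 : deriv χ' w' ≠ 0 := by
    intro h0
    have := hχ'.eq w' hw'
    rw [h0] at this
    norm_num at this
  have hσ1 : σ = 1 := by
    rcases hσ with h | h
    · exact h
    · exfalso
      rw [hd, h] at hσd
      apply hd0
      have : deriv χ' w' = 0 := by linear_combination (1 / 2 : ℂ) * hσd
      exact this
  subst hσ1
  have hleft : ∀ s : ℝ, 0 ≤ s → χ (w - s) = χ' (w' - s) := by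
    intro s hs
    have := (hseg (-(s : ℂ)) (fun t ht => by
      have h1 : 0 ≤ t * s := mul_nonneg ht.1 hs
      constructor
      · have := hL w hw (t * s) h1
        push_cast at this
        rw [show w + (t : ℂ) * -(s : ℂ) = w - (t : ℂ) * s by ring]
        exact this
      · have := hL' w' hw' (t * s) h1
        push_cast at this
        rw [show w' + 1 * ((t : ℂ) * -(s : ℂ)) = w' - (t : ℂ) * s by ring]
        exact this)).1
    rw [show w + -(s : ℂ) = w - s by ring, show w' + 1 * -(s : ℂ) = w' - s by ring] at this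
    exact this
  have hwre : w.re = u := by simp [hwd]
  have hwre' : w'.re = u' := by simp [hwd']
  have hfar : ∀ s : ℝ, 0 ≤ s → u < s → u' < s → ψ i (exp (w - s)) = ψ i' (exp (w' - s)) := by
    intro s hs h1 h2
    have h3 : w - s ∈ HP 0 := by
      show (w - s).re < -0
      rw [sub_re, hwre, ofReal_re]
      linarith
    have h4 : w' - s ∈ HP 0 := by
      show (w' - s).re < -0
      rw [sub_re, hwre', ofReal_re]
      linarith
    have h5 := hleft s hs
    rw [he h3, he' h4] at h5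
    exact h5
  -- the limit
  have hexp : ∀ z : ℂ, Tendsto (fun s : ℝ => exp (z - s)) atTop (𝓝 0) := by
    intro z
    have h1 : (fun s : ℝ => exp (z - s)) = fun s : ℝ => exp z * ((Real.exp (-s) : ℝ) : ℂ) := by
      funext s
      rw [Complex.ofReal_exp, ← Complex.exp_add]
      congr 1
      push_cast
      ring
    rw [h1]
    have h2 : Tendsto (fun s : ℝ => ((Real.exp (-s) : ℝ) : ℂ)) atTop (𝓝 ((0 : ℝ) : ℂ)) :=
      (Complex.continuous_ofReal.tendsto 0).comp Real.tendsto_exp_neg_atTop_nhds_zero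
    have := h2.const_mul (exp z)
    simpa using this
  have hψc : ∀ j, Tendsto (ψ j) (𝓝 0) (𝓝 (b j)) := by
    intro j
    have h1 : ContinuousAt (ψ j) 0 :=
      ((hPN j).diff.differentiableAt (ball_mem_nhds 0 one_pos)).continuousAt
    have := h1.tendsto
    rwa [(hPN j).val] at this
  have hii : i = i' := by
    apply hb
    have h1 := (hψc i).comp (hexp w)
    have h2 := (hψc i').comp (hexp w')
    refine tendsto_nhds_unique_of_eventuallyEq h1 h2 ?_
    filter_upwards [eventually_ge_atTop 0, eventually_gt_atTop u, eventually_gt_atTop u'] with s a1 a2 a3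
    exact hfar s a1 a2 a3
  refine ⟨hii, ?_⟩
  subst hii
  set s : ℝ := max 0 (max u u') + 1 with hs
  have hs0 : 0 ≤ s := by
    have := le_max_left 0 (max u u')
    linarith
  have hsu : u < s := by
    have := le_trans (le_max_left u u') (le_max_right 0 (max u u'))
    linarith
  have hsu' : u' < s := by
    have := le_trans (le_max_right u u') (le_max_right 0 (max u u'))
    linarith
  have hball : ∀ z : ℂ, z.re < s → exp (z - s) ∈ ball (0 : ℂ) 1 := by
    intro z hz
    rw [mem_ball_zero_iff, Complex.norm_exp, Real.exp_lt_one_iff, sub_re, ofReal_re]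
    linarith
  have h1 := hNI k b g i (ψ i) 1 (hPN i) (hball w (by rw [hwre]; exact hsu))
    (hball w' (by rw [hwre']; exact hsu')) (hfar s hs0 hsu hsu')
  obtain ⟨n, hn⟩ := Complex.exp_eq_exp_iff_exists_int.1 h1
  have him := congrArg Complex.im hn
  have hwim : w.im = y := by simp [hwd]
  have hwim' : w'.im = y' := by simp [hwd']
  have hval : (w' - s + n * (2 * Real.pi * I)).im = y' + n * (2 * Real.pi) := by
    have h0 : ((n : ℂ) * (2 * Real.pi * I)) = ((n * (2 * Real.pi) : ℝ) : ℂ) * I := by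
      push_cast
      ring
    rw [add_im, sub_im, hwim', ofReal_im, h0, Complex.im_ofReal_mul, I_im]
    ring
  rw [hval, sub_im, hwim, ofReal_im, sub_zero] at him
  refine ⟨-n, ?_⟩
  push_cast
  linarith

/-- the derivative along a ray, as a function of the distance to the end. -/
theorem HINJ_hd {χ : ℂ → ℂ} {Ω : Set ℂ} (hΩ : IsOpen Ω) (hχ : DifferentiableOn ℂ χ Ω) (T y x : ℝ)
    (hm : ((T - x : ℝ) : ℂ) + y * I ∈ Ω) :
    HasDerivAt (fun x : ℝ => χ (((T - x : ℝ) : ℂ) + y * I))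
      (-deriv χ (((T - x : ℝ) : ℂ) + y * I)) x := by
  have h1 : HasDerivAt χ (deriv χ (((T - x : ℝ) : ℂ) + y * I)) (((T - x : ℝ) : ℂ) + y * I) :=
    (hχ.differentiableAt (hΩ.mem_nhds hm)).hasDerivAt
  have h3 : HasDerivAt (fun x : ℝ => T - x) (-1) x := by
    simpa using (hasDerivAt_id x).const_sub T
  have h2 : HasDerivAt (fun x : ℝ => ((T - x : ℝ) : ℂ) + y * I) (-1) x := by
    have := (h3.ofReal_comp).add_const ((y : ℂ) * I)
    simpa using this
  have := h1.comp_of_eq x h2 rfl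
  rw [mul_neg, mul_one] at this
  exact this

theorem HINJ (hNU : NU_stmt) (hNI : NI_stmt) : HINJ_stmt := by
  intro k _ b g ψ hF i l y y' T T' ζ m h r s a hL hH hH'
  obtain ⟨χ, Ω, hΩ, hHP, hleft, hmem, hχ, he, hev⟩ := hH
  obtain ⟨χ', Ω', hΩ', hHP', hleft', hmem', hχ', he', hev'⟩ := hH'
  obtain ⟨c, hc, hcs⟩ := (mem_nhdsLT_iff_exists_Ioo_subset).1 hev
  obtain ⟨c', hc', hcs'⟩ := (mem_nhdsLT_iff_exists_Ioo_subset).1 hev'
  have hcT : c < T := hc
  have hcT' : c' < T' := hc'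
  set σ : ℝ := min (T - c) (T' - c') / 2 with hσ
  have hσ0 : 0 < σ := by
    have : 0 < min (T - c) (T' - c') := lt_min (by linarith) (by linarith)
    rw [hσ]
    linarith
  have hσ1 : 2 * σ ≤ T - c := by
    have := min_le_left (T - c) (T' - c')
    rw [hσ]
    linarith
  have hσ2 : 2 * σ ≤ T' - c' := by
    have := min_le_right (T - c) (T' - c')
    rw [hσ]
    linarith
  have heq : ∀ x ∈ Ioo (0 : ℝ) (2 * σ), χ (((T - x : ℝ) : ℂ) + y * I) =
      χ' (((T' - x : ℝ) : ℂ) + y' * I) := by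
    intro x hx
    obtain ⟨hx0, hx1⟩ := hx
    obtain ⟨p1, p2⟩ := hcs (show T - x ∈ Ioo c T from ⟨by linarith, by linarith⟩)
    obtain ⟨q1, q2⟩ := hcs' (show T' - x ∈ Ioo c' T' from ⟨by linarith, by linarith⟩)
    apply hL.inj p1 q1
    rw [p2, q2]
    congr 3
    ring
  have hd1 := HINJ_hd hΩ hχ.diff T y σ (hmem (T - σ) (by linarith))
  have hd2 := HINJ_hd hΩ' hχ'.diff T' y' σ (hmem' (T' - σ) (by linarith))
  have hd3 : HasDerivAt (fun x : ℝ => χ (((T - x : ℝ) : ℂ) + y * I))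
      (-deriv χ' (((T' - σ : ℝ) : ℂ) + y' * I)) σ := by
    refine hd2.congr_of_eventuallyEq ?_
    filter_upwards [Ioo_mem_nhds hσ0 (show σ < 2 * σ by linarith)] with x hx
    exact heq x hx
  have hd4 := neg_injective (hd1.unique hd3)
  exact HINJ_inj hNU hNI b g ψ hF.inj (fun j => (hF.mx j).pn) i l χ χ' Ω Ω' (T - σ) (T' - σ) y y'
    hΩ hΩ' hleft hleft' hχ hχ' he he' (hmem (T - σ) (by linarith)) (hmem' (T' - σ) (by linarith))
    (heq σ ⟨hσ0, by linarith⟩) hd4

end MQ
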