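import Pool.Agent.helper74.MQ.Spec

/-!
# Project mq, module NOG
-/

set_option autoImplicit false

open Complex Metric Set Filter Topology MeasureTheory MPS

noncomputable section

namespace MQ

theorem NOG (h1 : NG1_stmt) (h2 : NG2_stmt) (h3 : NG3_stmt) : NOG_stmt := by
  intro n d₀ r₀ hn hd₀ hr₀ hr₁
  obtain ⟨d₂, hd₂, R₃, hR₃, ε₃, hε₃, H3⟩ := h3 n d₀ r₀ hn hd₀ hr₀ hr₁
  obtain ⟨R₁, hR₁, ε₁, hε₁, H1⟩ := h1 n d₀ d₂ r₀ hn hd₀ hd₂ hr₀ hr₁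
  obtain ⟨R₂, hR₂, ε₂, hε₂, H2⟩ := h2 n d₀ r₀ hn hd₀ hr₀ hr₁
  refine ⟨max R₁ (max R₂ R₃), le_trans hR₁ (le_max_left _ _), min ε₁ (min ε₂ ε₃),
    lt_min hε₁ (lt_min hε₂ hε₃), ?_⟩
  intro k _ c b g ψ R ε hSU hF hR hε hd i l S y hil hS
  have a1 : R₁ ≤ R := le_trans (le_max_left _ _) hR
  have a2 : R₂ ≤ R := le_trans (le_trans (le_max_left _ _) (le_max_right _ _)) hR
  have a3 : R₃ ≤ R := le_trans (le_trans (le_max_right _ _) (le_max_right _ _)) hR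
  have b1 : ε ≤ ε₁ := le_trans hε (min_le_left _ _)
  have b2 : ε ≤ ε₂ := le_trans hε (le_trans (min_le_right _ _) (min_le_left _ _))
  have b3 : ε ≤ ε₃ := le_trans hε (le_trans (min_le_right _ _) (min_le_right _ _))
  by_cases hs : i + i = l + l
  · exact H2 k c b g ψ R ε hSU hF a2 b2 hd i l S y hil hs hS
  · by_cases ht : ‖(rho n b / ‖rho n b‖) ^ 2 - 1‖ ≤ d₂
    · exact H3 k c b g ψ R ε hSU hF a3 b3 hd ht i l S y hil hs hS
    · exact H1 k c b g ψ R ε hSU hF a1 b1 hd (le_of_not_ge ht) i l S y hil hS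

end MQ
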