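import Pool.Agent.helper74.MQ.Spec

/-!
# Project mq, module RE0
-/

set_option autoImplicit false

open Complex Metric Set Filter Topology MeasureTheory MPS

noncomputable section

namespace MQ

theorem RE0 (hND : ND_stmt) (hNI : NI_stmt) : RE0_stmt := by
  intro k _ b g ψ hF i l S y₁ y₂ hy hS
  by_contra hlt
  push Not at hlt
  obtain ⟨χ, hχ⟩ := hS
  set w : ℂ := ((S.re / 3 : ℝ) : ℂ) + (((y₁ + y₂) / 2 : ℝ) : ℂ) * I with hw
  have hre : w.re = S.re / 3 := by simp [hw]
  have him : w.im = (y₁ + y₂) / 2 := by simp [hw]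
  have h1 : y₁ < w.im := by
    rw [him]
    linarith
  have h2 : w.im < y₂ := by
    rw [him]
    linarith
  have e1 := hχ.left w h1 h2 (by rw [hre]; linarith)
  have e2 := hχ.right w h1 h2 (by rw [hre]; linarith)
  rw [e1] at e2
  have m1 : exp w ∈ ball (0 : ℂ) 1 := by
    rw [mem_ball_zero_iff, Complex.norm_exp, Real.exp_lt_one_iff, hre]
    linarith
  have m2 : exp (S - w) ∈ ball (0 : ℂ) 1 := by
    rw [mem_ball_zero_iff, Complex.norm_exp, Real.exp_lt_one_iff, sub_re, hre]
    linarith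
  have e3 : ψ i (exp w) = ψ l (exp (S - w)) := e2
  by_cases hil : i = l
  · subst hil
    have e4 := hNI k b g i (ψ i) 1 (hF.mx i).pn m1 m2 e3
    have e5 := congrArg norm e4
    rw [Complex.norm_exp, Complex.norm_exp, Real.exp_eq_exp, sub_re, hre] at e5
    linarith
  · have hd := hND k b g i l (ψ i) (ψ l) hF.inj hil (hF.mx i) (hF.mx l)
    exact Set.disjoint_left.1 hd ⟨_, m1, rfl⟩ ⟨_, m2, e3.symm⟩

end MQ
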